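import Pool.Agent.TH679.PL.Asym

/-!
The asymptotic form of the lower bound for complete binary trees
-/

set_option autoImplicit false

namespace Pool.Agent.TH679.TR

open Pool.Agent.TH679.PL (clog_le_logb)

theorem steps_ge {ε : ℝ} (hε : 0 < ε) (hε2 : ε ≤ 1) {h K L N κ : ℕ}
    (g1 : 12 * ((h : ℝ) ^ 2 + 2) ≤ (2 : ℝ) ^ (ε / 2 * h)) (g2 : 8 / ε ≤ (h : ℝ))
    (g3 : 6 ≤ (h : ℝ)) (hκ : h ≤ κ) (hN1 : 1 ≤ N) (hN : N ≤ 2 ^ (4 * h + 1)) (hL : 1 ≤ L)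
    (hK : (K : ℝ) ≤ ((2 ^ h : ℕ) : ℝ) ^ (1 - ε))
    (hlaw : (2 ^ h) ^ κ ≤ 2 * L * ((Nat.clog 2 L + 1) * K) ^ κ) :
    (N : ℝ) ^ (ε / 100 * Real.logb 2 N) ≤ L := by
  by_contra hlt
  push Not at hlt
  obtain ⟨l, hl⟩ : ∃ l : ℝ, l = h := ⟨_, rfl⟩
  rw [← hl] at g1 g2 g3
  have hl0 : 0 < l := by linarith
  have hM : (((2 ^ h : ℕ) : ℝ)) = 2 ^ l := by
    rw [hl, Real.rpow_natCast]
    push_cast
    rfl
  have hL0 : (0 : ℝ) < L := by exact_mod_cast hL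
  have hN0 : (0 : ℝ) < N := by exact_mod_cast hN1
  have hN1' : (1 : ℝ) ≤ N := by exact_mod_cast hN1
  set ν := Real.logb 2 N with hν
  have hN2 : (N : ℝ) = 2 ^ ν := (Real.rpow_logb (by norm_num) (by norm_num) hN0).symm
  have hν0 : 0 ≤ ν := Real.logb_nonneg (by norm_num) hN1'
  have hν1 : ν ≤ 4 * l + 1 := by
    have e1 : (N : ℝ) ≤ 2 ^ (4 * l + 1) := by
      have e2 : ((N : ℕ) : ℝ) ≤ ((2 ^ (4 * h + 1) : ℕ) : ℝ) := by exact_mod_cast hN
      refine e2.trans (le_of_eq ?_)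
      rw [hl]
      have e3 : (4 * (h : ℝ) + 1) = ((4 * h + 1 : ℕ) : ℝ) := by push_cast; ring
      rw [e3, Real.rpow_natCast]
      push_cast
      rfl
    rw [hN2] at e1
    exact (Real.rpow_le_rpow_left_iff (by norm_num)).1 e1
  have hν2 : ν ≤ 5 * l := by linarith
  have hLlog : Real.logb 2 L ≤ ε / 4 * l ^ 2 := by
    have e1 : (L : ℝ) ≤ 2 ^ (ε / 100 * ν ^ 2) := by
      refine hlt.le.trans (le_of_eq ?_)
      rw [hN2, ← Real.rpow_mul (by norm_num)]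
      congr 1
      ring
    have e2 : Real.logb 2 L ≤ ε / 100 * ν ^ 2 := by
      rw [Real.logb_le_iff_le_rpow (by norm_num) hL0]
      exact e1
    have e3 : ν ^ 2 ≤ (5 * l) ^ 2 := pow_le_pow_left₀ hν0 hν2 2
    have e4 : ε / 100 * ν ^ 2 ≤ ε / 100 * (5 * l) ^ 2 :=
      mul_le_mul_of_nonneg_left e3 (by positivity)
    refine e2.trans (e4.trans (le_of_eq ?_))
    ring
  have hclog : (Nat.clog 2 L : ℝ) + 1 ≤ l ^ 2 + 2 := by
    have e1 := clog_le_logb hL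
    have e2 : ε / 4 * l ^ 2 ≤ 1 * l ^ 2 :=
      mul_le_mul_of_nonneg_right (by linarith) (sq_nonneg l)
    linarith
  have hx : ((((Nat.clog 2 L + 1) * K : ℕ)) : ℝ) ≤ 2 ^ ((1 - ε / 2) * l) := by
    push_cast
    have e0 : (K : ℝ) ≤ 2 ^ ((1 - ε) * l) := by
      refine hK.trans (le_of_eq ?_)
      rw [hM, ← Real.rpow_mul (by norm_num), mul_comm]
    have e1 : ((Nat.clog 2 L : ℝ) + 1) * K ≤ (l ^ 2 + 2) * 2 ^ ((1 - ε) * l) :=
      mul_le_mul hclog e0 (Nat.cast_nonneg _) (by positivity)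
    have e2 : l ^ 2 + 2 ≤ (2 : ℝ) ^ (ε / 2 * l) := by
      have : 0 ≤ l ^ 2 + 2 := by positivity
      linarith
    have e3 : (2 : ℝ) ^ ((1 - ε / 2) * l) = 2 ^ (ε / 2 * l) * 2 ^ ((1 - ε) * l) := by
      rw [← Real.rpow_add (by norm_num)]
      congr 1
      ring
    rw [e3]
    exact e1.trans (mul_le_mul_of_nonneg_right e2 (by positivity))
  have hlaw' : ((2 : ℝ) ^ l) ^ κ ≤ 2 * L * (2 ^ ((1 - ε / 2) * l)) ^ κ := by
    generalize 2 ^ h = M at hM hlaw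
    have e1 : ((M ^ κ : ℕ) : ℝ) ≤ ((2 * L * ((Nat.clog 2 L + 1) * K) ^ κ : ℕ) : ℝ) := by
      exact_mod_cast hlaw
    rw [Nat.cast_pow, Nat.cast_mul, Nat.cast_pow, Nat.cast_mul, Nat.cast_ofNat, hM] at e1
    refine e1.trans (mul_le_mul_of_nonneg_left ?_ (by positivity))
    exact pow_le_pow_left₀ (Nat.cast_nonneg _) hx κ
  have hfin : ε / 2 * l * κ ≤ 1 + ε / 4 * l ^ 2 := by
    have e1 : ((2 : ℝ) ^ l) ^ κ = 2 ^ (ε / 2 * l * κ) * (2 ^ ((1 - ε / 2) * l)) ^ κ := by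
      rw [← Real.rpow_natCast, ← Real.rpow_natCast, ← Real.rpow_mul (by norm_num),
        ← Real.rpow_mul (by norm_num), ← Real.rpow_add (by norm_num)]
      congr 1
      ring
    rw [e1] at hlaw'
    have e2 : (2 : ℝ) ^ (ε / 2 * l * κ) ≤ 2 * L := le_of_mul_le_mul_right hlaw' (by positivity)
    have e3 : Real.logb 2 ((2 : ℝ) ^ (ε / 2 * l * κ)) ≤ Real.logb 2 (2 * L) :=
      Real.logb_le_logb_of_le (by norm_num) (by positivity) e2
    rw [Real.logb_rpow (by norm_num) (by norm_num), Real.logb_mul (by norm_num) hL0.ne',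
      Real.logb_self_eq_one (by norm_num)] at e3
    linarith
  have hκ' : l ≤ κ := by
    rw [hl]
    exact_mod_cast hκ
  have e1 : ε / 2 * l * l ≤ ε / 2 * l * κ :=
    mul_le_mul_of_nonneg_left hκ' (by positivity)
  have hεl : 8 ≤ ε * l := by
    rw [div_le_iff₀ hε] at g2
    linarith
  have e2 : 8 * l ≤ ε * l * l := mul_le_mul_of_nonneg_right hεl hl0.le
  nlinarith

end Pool.Agent.TH679.TR
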