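import Pool.Agent.TH679.TR.Tree
import Pool.Agent.TH679.PD.PebAsym

/-!
Complete binary trees
-/

set_option autoImplicit false

namespace Pool.Agent.TH679.TR

open Finset
open Pool.Agent.W994.DE (Dag)
open Pool.Agent.W994.DE.Dag
open Pool.Agent.TH679.PD

theorem fin_ite2 {c : Prop} [Decidable c] (s : Fin (if c then 2 else 0)) : c ∧ s.val < 2 := by
  have h := s.isLt
  generalize s.val = v at h
  split_ifs at h with hc
  · exact ⟨hc, h⟩
  · omega

/-- The complete binary tree of height `h`: the children of the node `i` are `2 i + 1` and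
`2 i + 2`, `0` is the root. -/
def binTree (h : ℕ) : Dag where
  V := Fin (2 ^ (h + 1) - 1)
  deg := fun i => if i.val + 1 < 2 ^ h then 2 else 0
  kid := fun i a => ⟨2 * i.val + 1 + a.val, by
    have h1 := fin_ite2 a
    have h2 : 2 ^ (h + 1) = 2 * 2 ^ h := by rw [pow_succ, mul_comm]
    omega⟩
  rank := fun i => 2 ^ (h + 1) - i.val
  rank_lt := fun i a => by
    show 2 ^ (h + 1) - (2 * i.val + 1 + a.val) < 2 ^ (h + 1) - i.val
    have := i.isLt
    omega

/-- the root -/
def broot (h : ℕ) : (binTree h).V := (⟨0, by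
  have h1 : 1 ≤ 2 ^ h := Nat.one_le_two_pow
  have h2 : 2 ^ (h + 1) = 2 * 2 ^ h := by rw [pow_succ, mul_comm]
  omega⟩ : Fin (2 ^ (h + 1) - 1))

theorem binTree_card (h : ℕ) : Fintype.card (binTree h).V = 2 ^ (h + 1) - 1 :=
  Fintype.card_fin _

theorem binTree_deg (h : ℕ) (i : (binTree h).V) : (binTree h).deg i ≤ 2 := by
  show (if i.val + 1 < 2 ^ h then 2 else 0) ≤ 2
  split <;> omega

theorem binTree_kid (h : ℕ) (i : (binTree h).V) (a : Fin ((binTree h).deg i)) :
    ((binTree h).kid i a).val = 2 * i.val + 1 + a.val := rfl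

theorem isTree_bin (h : ℕ) : IsTree (binTree h) (broot h) := by
  have h2 : 2 ^ (h + 1) = 2 * 2 ^ h := by rw [pow_succ, mul_comm]
  constructor
  · rintro ⟨i, a⟩ ⟨j, b⟩ hab
    have h3 : 2 * i.val + 1 + a.val = 2 * j.val + 1 + b.val := congrArg Fin.val hab
    have h4 := (fin_ite2 a).2
    have h5 := (fin_ite2 b).2
    have h6 : i = j := Fin.ext (by omega)
    subst h6
    have h7 : a = b := Fin.ext (by omega)
    rw [h7]
  · intro v hv
    have h3 : v.val ≠ 0 := fun h3 => hv (Fin.ext h3)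
    have h4 := v.isLt
    have h5 : (v.val - 1) / 2 < 2 ^ (h + 1) - 1 := by omega
    have h6 : (v.val - 1) / 2 + 1 < 2 ^ h := by omega
    have h7 : (binTree h).deg (⟨(v.val - 1) / 2, h5⟩ : Fin (2 ^ (h + 1) - 1)) = 2 := by
      show (if (v.val - 1) / 2 + 1 < 2 ^ h then 2 else 0) = 2
      rw [if_pos h6]
    refine ⟨(⟨(v.val - 1) / 2, h5⟩ : Fin (2 ^ (h + 1) - 1)), ⟨(v.val - 1) % 2, by
      rw [h7]; omega⟩, ?_⟩
    apply Fin.ext
    show 2 * ((v.val - 1) / 2) + 1 + (v.val - 1) % 2 = v.val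
    omega

/-- `X` is a descendant of `v`, in the numbering where the children of `v` are `2 v`, `2 v + 1`. -/
def Desc (v X : ℕ) : Prop := ∃ j, v * 2 ^ j ≤ X ∧ X < (v + 1) * 2 ^ j

theorem desc_left {v X : ℕ} (h : Desc (2 * v) X) : Desc v X := by
  obtain ⟨j, h1, h2⟩ := h
  refine ⟨j + 1, ?_, ?_⟩
  · calc v * 2 ^ (j + 1) = 2 * v * 2 ^ j := by ring
      _ ≤ X := h1
  · calc X < (2 * v + 1) * 2 ^ j := h2
      _ ≤ (2 * v + 2) * 2 ^ j := Nat.mul_le_mul_right _ (by omega)
      _ = (v + 1) * 2 ^ (j + 1) := by ring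

theorem desc_right {v X : ℕ} (h : Desc (2 * v + 1) X) : Desc v X := by
  obtain ⟨j, h1, h2⟩ := h
  refine ⟨j + 1, ?_, ?_⟩
  · calc v * 2 ^ (j + 1) = 2 * v * 2 ^ j := by ring
      _ ≤ (2 * v + 1) * 2 ^ j := Nat.mul_le_mul_right _ (by omega)
      _ ≤ X := h1
  · calc X < (2 * v + 1 + 1) * 2 ^ j := h2
      _ = (v + 1) * 2 ^ (j + 1) := by ring

theorem desc_self (v : ℕ) : Desc v v := ⟨0, by omega, by omega⟩

theorem peb_node (h g : ℕ) : ∀ (i : (binTree h).V), 2 ^ h ≤ (i.val + 1) * 2 ^ g →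
    (i.val + 1 + 1) * 2 ^ g ≤ 2 ^ (h + 1) → ∀ (s t : ℕ) (A : Finset (binTree h).V),
      Peb (binTree h) s t A → A.card + g + 2 ≤ s →
      (∀ x ∈ A, ¬ Desc (i.val + 1) (x.val + 1)) →
      Peb (binTree h) s (t + (2 ^ (g + 1) - 1)) (insert i A) := by
  induction g with
  | zero =>
    intro i hi1 _ s t A hA hs _
    have h0 : (binTree h).deg i = 0 := by
      show (if i.val + 1 < 2 ^ h then 2 else 0) = 0
      rw [if_neg]
      omega
    have h1 : t + (2 ^ (0 + 1) - 1) = t + 1 := rfl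
    rw [h1]
    refine Peb.place t A i hA (fun a => ?_) ?_
    · have h2 : a.val < 0 := lt_of_lt_of_eq a.isLt h0
      omega
    · exact (card_insert_le _ _).trans (by omega)
  | succ g ih =>
    intro i hi1 hi2 s t A hA hs hdesc
    have hpg : 0 < 2 ^ g := Nat.pow_pos (by norm_num)
    have h2 : 2 ^ (h + 1) = 2 * 2 ^ h := by rw [pow_succ, mul_comm]
    have hg2 : 2 ^ (g + 1) = 2 * 2 ^ g := by rw [pow_succ, mul_comm]
    have hlt : i.val + 1 < 2 ^ h := by
      have h3 : (i.val + 1 + 1) * 1 ≤ (i.val + 1 + 1) * 2 ^ g := Nat.mul_le_mul_left _ hpg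
      have h4 : (i.val + 1 + 1) * 2 ^ (g + 1) = 2 * ((i.val + 1 + 1) * 2 ^ g) := by
        rw [hg2]; ring
      omega
    have hdeg : (binTree h).deg i = 2 := by
      show (if i.val + 1 < 2 ^ h then 2 else 0) = 2
      rw [if_pos hlt]
    obtain ⟨l, hl⟩ : ∃ l : (binTree h).V, l.val = 2 * i.val + 1 :=
      ⟨(⟨2 * i.val + 1, by omega⟩ : Fin (2 ^ (h + 1) - 1)), rfl⟩
    obtain ⟨q, hq⟩ : ∃ q : (binTree h).V, q.val = 2 * i.val + 2 :=
      ⟨(⟨2 * i.val + 2, by omega⟩ : Fin (2 ^ (h + 1) - 1)), rfl⟩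
    have el : l.val + 1 = 2 * (i.val + 1) := by omega
    have eq' : q.val + 1 = 2 * (i.val + 1) + 1 := by omega
    have hlA : l ∉ A := fun hlA => hdesc l hlA (by
      rw [el]; exact desc_left (desc_self _))
    have hqA : q ∉ A := fun hqA => hdesc q hqA (by
      rw [eq']; exact desc_right (desc_self _))
    have hlq : l ≠ q := fun h => by
      have := congrArg Fin.val h
      omega
    have hil : i ≠ l := fun h => by
      have := congrArg Fin.val h
      omega
    have hiq : i ≠ q := fun h => by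
      have := congrArg Fin.val h
      omega
    have s1 := ih l (by
        rw [el]
        calc 2 ^ h ≤ (i.val + 1) * 2 ^ (g + 1) := hi1
          _ = 2 * (i.val + 1) * 2 ^ g := by rw [hg2]; ring) (by
        rw [el]
        calc (2 * (i.val + 1) + 1) * 2 ^ g ≤ (2 * (i.val + 1) + 2) * 2 ^ g :=
              Nat.mul_le_mul_right _ (by omega)
          _ = (i.val + 1 + 1) * 2 ^ (g + 1) := by rw [hg2]; ring
          _ ≤ 2 ^ (h + 1) := hi2) s t A hA (by omega) (by
        intro x hx hd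
        rw [el] at hd
        exact hdesc x hx (desc_left hd))
    have s2 := ih q (by
        rw [eq']
        calc 2 ^ h ≤ (i.val + 1) * 2 ^ (g + 1) := hi1
          _ = 2 * (i.val + 1) * 2 ^ g := by rw [hg2]; ring
          _ ≤ (2 * (i.val + 1) + 1) * 2 ^ g := Nat.mul_le_mul_right _ (by omega)) (by
        rw [eq']
        calc (2 * (i.val + 1) + 1 + 1) * 2 ^ g = (i.val + 1 + 1) * 2 ^ (g + 1) := by
              rw [hg2]; ring
          _ ≤ 2 ^ (h + 1) := hi2) s _ (insert l A) s1 (by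
        rw [card_insert_of_notMem hlA]
        omega) (by
        intro x hx hd
        rw [eq'] at hd
        rcases mem_insert.1 hx with hx | hx
        · rw [hx, el] at hd
          obtain ⟨j, h1, _⟩ := hd
          have h3 : 1 ≤ 2 ^ j := Nat.one_le_two_pow
          have h4 : (2 * (i.val + 1) + 1) * 1 ≤ (2 * (i.val + 1) + 1) * 2 ^ j :=
            Nat.mul_le_mul_left _ h3
          omega
        · exact hdesc x hx (desc_right hd))
    have hkids : ∀ a, (binTree h).kid i a ∈ insert q (insert l A) := by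
      intro a
      have h3 := (fin_ite2 a).2
      have h4 : ((binTree h).kid i a).val = 2 * i.val + 1 + a.val := rfl
      rcases Nat.lt_or_ge a.val 1 with h5 | h5
      · have h6 : (binTree h).kid i a = l := Fin.ext (by rw [h4, hl]; omega)
        rw [h6]
        exact mem_insert_of_mem (mem_insert_self _ _)
      · have h6 : (binTree h).kid i a = q := Fin.ext (by rw [h4, hq]; omega)
        rw [h6]
        exact mem_insert_self _ _
    have s3 := Peb.place _ _ i s2 hkids (by
      refine (card_insert_le _ _).trans ?_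
      have h3 := card_insert_le q (insert l A)
      have h4 := card_insert_le l A
      omega)
    have s4 := Peb.remove _ _ l (Peb.remove _ _ q s3)
    have e1 : ((insert i (insert q (insert l A))).erase q).erase l = insert i A := by
      ext x
      simp only [mem_erase, mem_insert]
      constructor
      · rintro ⟨h1, h3, h4⟩
        rcases h4 with h4 | h4 | h4 | h4
        · exact Or.inl h4
        · exact absurd h4 h3
        · exact absurd h4 h1
        · exact Or.inr h4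
      · rintro (h1 | h1)
        · rw [h1]
          exact ⟨hil, hiq, Or.inl rfl⟩
        · exact ⟨fun h => hlA (h ▸ h1), fun h => hqA (h ▸ h1), Or.inr (Or.inr (Or.inr h1))⟩
    rw [e1] at s4
    have e2 : t + (2 ^ (g + 1) - 1) + (2 ^ (g + 1) - 1) + 1 = t + (2 ^ (g + 1 + 1) - 1) := by
      have h3 : 2 ^ (g + 1 + 1) = 2 * 2 ^ (g + 1) := by rw [pow_succ, mul_comm]
      have h4 : 1 ≤ 2 ^ (g + 1) := Nat.one_le_two_pow
      omega
    rw [e2] at s4
    exact s4

/-- `h + 2` pebbles are enough for the complete binary tree. -/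
theorem peb_bin (h : ℕ) : Peb (binTree h) (h + 2) (2 ^ (h + 1) - 1) (insert (broot h) ∅) := by
  have h1 := peb_node h h (broot h) (by show 2 ^ h ≤ (0 + 1) * 2 ^ h; omega) (by
    show (0 + 1 + 1) * 2 ^ h ≤ 2 ^ (h + 1)
    rw [pow_succ]
    omega) (h + 2) 0 ∅ Peb.start (by rw [card_empty]; omega) (fun x hx =>
      absurd hx (notMem_empty _))
  rwa [zero_add] at h1

theorem card_rule (h k : ℕ) : Fintype.card (Rule (binTree h) k) =
    (2 ^ h - 1) * k ^ 3 + 2 ^ h * k := by
  have h1 : Fintype.card (Rule (binTree h) k) =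
      ∑ i : Fin (2 ^ (h + 1) - 1), k * k ^ (if i.val + 1 < 2 ^ h then 2 else 0) := by
    rw [Fintype.card_sigma]
    refine Finset.sum_congr rfl fun i _ => ?_
    rw [Fintype.card_prod, Fintype.card_fin, Fintype.card_fun, Fintype.card_fin, Fintype.card_fin]
    rfl
  rw [h1, Fin.sum_univ_eq_sum_range (fun i => k * k ^ (if i + 1 < 2 ^ h then 2 else 0))]
  have h2 : 2 ^ (h + 1) - 1 = (2 ^ h - 1) + 2 ^ h := by
    have : 1 ≤ 2 ^ h := Nat.one_le_two_pow
    rw [pow_succ]
    omega
  rw [h2, Finset.sum_range_add]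
  congr 1
  · rw [Finset.sum_congr rfl (g := fun _ => k ^ 3), Finset.sum_const, card_range, smul_eq_mul]
    intro i hi
    rw [mem_range] at hi
    rw [if_pos (by omega)]
    ring
  · rw [Finset.sum_congr rfl (g := fun _ => k), Finset.sum_const, card_range, smul_eq_mul]
    intro i _
    rw [if_neg (by omega), pow_zero, mul_one]

theorem upper_bin (R : Type) [CommSemiring R] (h k : ℕ) (hk : 1 ≤ k) (hh : 1 ≤ h) :
    ∃ (ρ : Type) (_ : Fintype ρ) (_ : DecidableEq ρ)
      (p : List (Pool.Agent.H564R3.PW.Instr R (Rule (binTree h) k) ρ)) (o : Fin k → ρ),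
      Fintype.card ρ = (h + 2) * k + 1 ∧
      p.length ≤ 15 * Fintype.card (Rule (binTree h) k) ∧
      ∀ (w : Rule (binTree h) k → R) (u : Fin k),
        Pool.Agent.H564R3.PW.exec w p (o u) = deriv w (broot h) u := by
  obtain ⟨p, o, h1, h2⟩ := peb_prog (R := R) (G := binTree h) hk (D := 2) (binTree_deg h)
    (peb_bin h) (mem_insert_self (broot h) ∅)
  refine ⟨PReg (h + 2) k, inferInstance, inferInstance, p, o, card_PReg _ _, ?_, h2⟩
  refine h1.trans ?_
  rw [card_rule]
  have h3 : 2 ^ (h + 1) - 1 ≤ 3 * (2 ^ h - 1) := by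
    have h4 : 2 ^ 1 ≤ 2 ^ h := Nat.pow_le_pow_right (by norm_num) hh
    rw [pow_succ]
    omega
  have h5 : k * (k ^ 2 * (2 + 2) + 1) ≤ 5 * k ^ 3 := by
    have h6 : k * 1 ≤ k * k ^ 2 := Nat.mul_le_mul_left _ (Nat.one_le_pow _ _ hk)
    calc k * (k ^ 2 * (2 + 2) + 1) = 4 * (k * k ^ 2) + k * 1 := by ring
      _ ≤ 4 * (k * k ^ 2) + k * k ^ 2 := Nat.add_le_add_left h6 _
      _ = 5 * k ^ 3 := by ring
  calc (2 ^ (h + 1) - 1) * (k * (k ^ 2 * (2 + 2) + 1))
      ≤ (3 * (2 ^ h - 1)) * (5 * k ^ 3) := Nat.mul_le_mul h3 h5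
    _ = 15 * ((2 ^ h - 1) * k ^ 3) := by ring
    _ ≤ _ := Nat.mul_le_mul_left _ (Nat.le_add_right _ _)

end Pool.Agent.TH679.TR
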