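import Pool.Agent.TH679.TR.Win
import Pool.Agent.H564R3.TS.Count

/-!
Counting labelled trees through histories
-/

set_option autoImplicit false
set_option linter.unusedSectionVars false

namespace Pool.Agent.TH679.TR

open Finset
open Pool.Agent.H564R3.TS (Hist C_pow)

section Labels

variable {Ω V : Type} [DecidableEq V] {m : ℕ}

/-- the labels of the nodes in `L` -/
def lb (lab : Ω → V → Fin m) (L : Finset V) (ω : Ω) : Finset (V × Fin m) :=
  L.image (fun l => (l, lab ω l))

theorem lb_union (lab : Ω → V → Fin m) (L L' : Finset V) (ω : Ω) :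
    lb lab (L ∪ L') ω = lb lab L ω ∪ lb lab L' ω := image_union _ _

theorem lb_card (lab : Ω → V → Fin m) (L : Finset V) (S : Finset Ω) :
    (S.image (lb lab L)).card ≤ m ^ L.card := by
  classical
  have h1 : S.image (lb lab L) ⊆
      (univ : Finset (L → Fin m)).image (fun φ => univ.image (fun l : L => ((l : V), φ l))) := by
    intro B hB
    rw [mem_image] at hB
    obtain ⟨ω, _, rfl⟩ := hB
    rw [mem_image]
    refine ⟨fun l => lab ω l, mem_univ _, ?_⟩
    ext ⟨l, v⟩
    simp only [lb, mem_image, mem_univ, true_and, Prod.mk.injEq]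
    constructor
    · rintro ⟨⟨l', hl'⟩, h1, h2⟩
      exact ⟨l', hl', h1, h2⟩
    · rintro ⟨l', hl', h1, h2⟩
      exact ⟨⟨l', hl'⟩, h1, h2⟩
  refine (card_le_card h1).trans (card_image_le.trans ?_)
  rw [card_univ, Fintype.card_fun, Fintype.card_fin, Fintype.card_coe]

theorem lb_mul (lab : Ω → V → Fin m) (L L' : Finset V) (S : Finset Ω) :
    (S.image (lb lab (L ∪ L'))).card ≤ (S.image (lb lab L)).card * (S.image (lb lab L')).card := by
  classical
  rw [← card_product]
  have h1 : S.image (lb lab (L ∪ L')) ⊆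
      ((S.image (lb lab L)) ×ˢ (S.image (lb lab L'))).image (fun q => q.1 ∪ q.2) := by
    intro B hB
    rw [mem_image] at hB
    obtain ⟨ω, hω, rfl⟩ := hB
    rw [mem_image]
    exact ⟨(lb lab L ω, lb lab L' ω), mem_product.2 ⟨mem_image_of_mem _ hω,
      mem_image_of_mem _ hω⟩, (lb_union lab L L' ω).symm⟩
  exact (card_le_card h1).trans card_image_le

end Labels

section Cond

variable {V ρ : Type} [DecidableEq V]

/-- the condition on a window -/
def Cnd (J : ℕ → ρ → Finset V) (a b : ℕ) (M : Finset V) : Prop :=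
  ∃ i, M ⊆ J b i ∧ ∀ j, Disjoint (J a j) M

/-- the condition for naming register `j` -/
def Nam (J : ℕ → ρ → Finset V) (a t b : ℕ) (M : Finset V) (j : ρ) : Prop :=
  ¬ Disjoint (J t j) M ∧ ¬ M ⊆ J t j ∧ Cnd J a b M

theorem cnd_cases (J : ℕ → ρ → Finset V) (a t b : ℕ) (M : Finset V) (h : Cnd J a b M) :
    Cnd J t b M ∨ Cnd J a t M ∨ ∃ j, Nam J a t b M j := by
  obtain ⟨i, h1, h2⟩ := h
  by_cases h3 : ∀ j, Disjoint (J t j) M
  · exact Or.inl ⟨i, h1, h3⟩
  · right
    push Not at h3
    obtain ⟨j, hj⟩ := h3
    by_cases h4 : M ⊆ J t j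
    · exact Or.inl ⟨j, h4, h2⟩
    · exact Or.inr ⟨j, hj, h4, i, h1, h2⟩

end Cond

theorem tree_rec {Ω V ρ : Type} [Fintype V] [DecidableEq V] [Fintype ρ] {r : V} {par : V → V}
    {rk : V → ℕ} (hrk : ∀ j, j ≠ r → rk j < rk (par j)) {m N : ℕ} (Φ : Finset Ω)
    (lab : Ω → V → Fin m) (J : Ω → ℕ → ρ → Finset V) (hJ : ∀ ω ∈ Φ, Hist N univ (J ω))
    (hty : ∀ ω ∈ Φ, ∀ ω' ∈ Φ, ∀ t ≤ N, ∀ i, (J ω t i).Nonempty → (J ω' t i).Nonempty →
      J ω t i = J ω' t i ∧ ∀ l, l ≠ r → ¬ (l ∈ J ω t i ↔ par l ∈ J ω t i) → lab ω l = lab ω' l)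
    (hK : 1 ≤ Fintype.card ρ) (h : ℕ) :
    (h + 1) * Fintype.card ρ ≤ m → ∀ s : ℕ, ∀ (M : Finset V), M.card = s → Conn r par M →
      ∀ (a : ℕ) (S : Finset Ω), a + 2 ^ h ≤ N →
      (∀ ω ∈ S, ω ∈ Φ ∧ Cnd (J ω) a (a + 2 ^ h) M) →
      (S.image (lb lab (inner r par M))).card * m ^ Nat.clog 2 s ≤
        2 ^ h * ((h + 1) * Fintype.card ρ) ^ Nat.clog 2 s * m ^ (s - 1) := by
  classical
  set K := Fintype.card ρ with hKdef
  induction h with
  | zero =>
    intro hm s M hs hM a S ha hS
    have hs1' : 1 ≤ s := by rw [← hs]; exact card_pos.2 hM.1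
    rcases S.eq_empty_or_nonempty with h0 | ⟨ω, hω⟩
    · subst h0
      simp
    · obtain ⟨hω1, i, h1, h2⟩ := hS ω hω
      obtain ⟨x, hxM⟩ := hM.1
      rw [pow_zero] at h1 ha
      have hs1 : s = 1 := by
        rcases (hJ ω hω1).down a (by omega) i with ⟨j, hj⟩ | ⟨j, l, hj⟩ | hj
        · have h3 := h1 hxM
          rw [hj] at h3
          exact absurd hxM (disjoint_left.1 (h2 j) h3)
        · have h3 := h1 hxM
          rw [hj, mem_union] at h3
          rcases h3 with h3 | h3
          · exact absurd hxM (disjoint_left.1 (h2 j) h3)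
          · exact absurd hxM (disjoint_left.1 (h2 l) h3)
        · have h3 := (card_le_card h1).trans hj
          omega
      subst hs1
      have h4 := lb_card lab (inner r par M) S
      have h5 : (inner r par M).card = 0 := by
        have := hM.2
        omega
      rw [h5] at h4
      simpa using h4
  | succ h ihh =>
    intro hm s
    have hm' : (h + 1) * K ≤ m := le_trans (Nat.mul_le_mul_right _ (by omega)) hm
    have hm1 : 1 ≤ m := le_trans (Nat.mul_pos (by omega) hK) hm'
    replace ihh := ihh hm'
    induction s using Nat.strong_induction_on with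
    | _ s ihs =>
    intro M hs hM a S ha hS
    have hs1 : 1 ≤ s := by rw [← hs]; exact card_pos.2 hM.1
    set t := a + 2 ^ h with ht
    have hb : a + 2 ^ (h + 1) = t + 2 ^ h := by rw [ht, pow_succ]; ring
    set b := a + 2 ^ (h + 1) with hbdef
    have h2h : 0 < 2 ^ h := Nat.pow_pos (by norm_num)
    have htb : t ≤ b := by omega
    set κ := Nat.clog 2 s with hκ
    set f := lb lab (inner r par M) with hf
    have hinn : (inner r par M).card = s - 1 := by
      have := hM.2
      omega
    set SR := S.filter (fun ω => Cnd (J ω) t b M) with hSR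
    set SL := S.filter (fun ω => Cnd (J ω) a t M) with hSL
    set SN : ρ → Finset Ω := fun j => S.filter (fun ω => Nam (J ω) a t b M j) with hSN
    have hsub : S ⊆ (SR ∪ SL) ∪ univ.biUnion SN := by
      intro ω hω
      have h1 := hS ω hω
      rcases cnd_cases (J ω) a t b M h1.2 with h2 | h2 | ⟨j, h2⟩
      · exact mem_union_left _ (mem_union_left _ (mem_filter.2 ⟨hω, h2⟩))
      · exact mem_union_left _ (mem_union_right _ (mem_filter.2 ⟨hω, h2⟩))
      · exact mem_union_right _ (mem_biUnion.2 ⟨j, mem_univ j, mem_filter.2 ⟨hω, h2⟩⟩)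
    have hcard : (S.image f).card ≤
        (SR.image f).card + (SL.image f).card + ∑ j, ((SN j).image f).card := by
      have h1 : S.image f ⊆ (SR.image f ∪ SL.image f) ∪ univ.biUnion (fun j => (SN j).image f) := by
        intro B hB
        rw [mem_image] at hB
        obtain ⟨A, hA, rfl⟩ := hB
        have h2 := hsub hA
        rw [mem_union, mem_union, mem_biUnion] at h2
        rw [mem_union, mem_union, mem_biUnion]
        rcases h2 with (h2 | h2) | ⟨j, hj, h2⟩
        · exact Or.inl (Or.inl (mem_image_of_mem f h2))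
        · exact Or.inl (Or.inr (mem_image_of_mem f h2))
        · exact Or.inr ⟨j, hj, mem_image_of_mem f h2⟩
      refine (card_le_card h1).trans ((card_union_le _ _).trans ?_)
      exact Nat.add_le_add (card_union_le _ _) card_biUnion_le
    have hR : (SR.image f).card * m ^ κ ≤ 2 ^ h * ((h + 1) * K) ^ κ * m ^ (s - 1) := by
      refine ihh s M hs hM t SR (by omega) ?_
      intro ω hω
      rw [hSR, mem_filter] at hω
      refine ⟨(hS ω hω.1).1, ?_⟩
      rw [← hb]
      exact hω.2
    have hLe : (SL.image f).card * m ^ κ ≤ 2 ^ h * ((h + 1) * K) ^ κ * m ^ (s - 1) := by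
      refine ihh s M hs hM a SL (by omega) ?_
      intro ω hω
      rw [hSL, mem_filter] at hω
      exact ⟨(hS ω hω.1).1, hω.2⟩
    have hN : ∀ j, ((SN j).Nonempty → 1 ≤ κ) ∧ ((SN j).image f).card * m ^ κ ≤
        2 ^ (h + 1) * ((h + 2) * K) ^ (κ - 1) * m ^ (s - 1) := by
      intro j
      rcases (SN j).eq_empty_or_nonempty with h0 | ⟨ω₀, hω₀⟩
      · rw [h0]
        simp
      have hmemN : ∀ ω ∈ SN j, ω ∈ Φ ∧ Nam (J ω) a t b M j := by
        intro ω hω
        rw [hSN] at hω
        simp only [mem_filter] at hω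
        exact ⟨(hS ω hω.1).1, hω.2⟩
      have hne : ∀ ω ∈ SN j, (J ω t j).Nonempty := by
        intro ω hω
        obtain ⟨_, h3, _⟩ := hmemN ω hω
        rw [nonempty_iff_ne_empty]
        intro h4
        rw [h4] at h3
        exact h3 (disjoint_empty_left _)
      set D := J ω₀ t j with hD
      have hDeq : ∀ ω ∈ SN j, J ω t j = D ∧ ∀ l, l ≠ r → ¬ (l ∈ D ↔ par l ∈ D) →
          lab ω l = lab ω₀ l := by
        intro ω hω
        have h1 := hty ω (hmemN ω hω).1 ω₀ (hmemN ω₀ hω₀).1 t (by omega) j (hne ω hω)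
          (hne ω₀ hω₀)
        refine ⟨h1.1, ?_⟩
        rw [hD, ← h1.1]
        exact h1.2
      -- cuts
      obtain ⟨C, hC⟩ : ∃ C, C = (inner r par M).filter (fun l => ¬ (l ∈ D ↔ par l ∈ D)) :=
        ⟨_, rfl⟩
      have hCsub : C ⊆ inner r par M := by
        rw [hC]; exact filter_subset _ _
      obtain ⟨c, hc⟩ : ∃ c, c = C.card := ⟨_, rfl⟩
      obtain ⟨M', y1, y2, y4, y5⟩ := split hrk c M C hM hCsub hc.symm
      obtain ⟨s', hs'⟩ : ∃ s', s' = M'.card := ⟨_, rfl⟩
      have y3 : 1 ≤ s' := by rw [hs']; exact card_pos.2 y2.1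
      rw [hs, ← hs'] at y5
      have hnocut : ∀ l ∈ inner r par M', (l ∈ D ↔ par l ∈ D) := by
        intro l hl
        by_contra h1
        refine disjoint_left.1 y4 ?_ hl
        rw [hC, mem_filter]
        exact ⟨inner_mono y1 hl, h1⟩
      have hconst := const_of_conn y2 hrk hnocut
      have hcut : 1 ≤ c := by
        by_contra h1
        have h2 : C = ∅ := by
          rw [← card_eq_zero, ← hc]; omega
        have h3 := const_of_conn hM hrk (D := D) (by
          intro l hl
          by_contra h3
          have : l ∈ C := by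
            rw [hC, mem_filter]
            exact ⟨hl, h3⟩
          rw [h2] at this
          exact absurd this (notMem_empty _))
        have h4 := (hmemN ω₀ hω₀).2
        rcases h3 with h3 | h3
        · exact h4.2.1 h3
        · exact h4.1 h3
      have hinn' : (inner r par M').card = s' - 1 := by
        have := y2.2
        omega
      have hCI : Disjoint C (inner r par M') := y4
      have hcs : c + (s' - 1) ≤ s - 1 := by
        rw [hc, ← hinn', ← hinn, ← card_union_of_disjoint hCI]
        exact card_le_card (union_subset hCsub (inner_mono y1))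
      have hs's : s' < s := by omega
      set κ' := Nat.clog 2 s' with hκ'
      have hκκ : κ ≤ κ' + c := by
        refine Nat.clog_le_of_le_pow ?_
        calc s ≤ (c + 1) * s' := y5
          _ ≤ 2 ^ c * 2 ^ κ' :=
              Nat.mul_le_mul Nat.lt_two_pow_self (Nat.le_pow_clog (by norm_num) _)
          _ = 2 ^ (κ' + c) := by rw [pow_add]; ring
      have hκ'κ : κ' ≤ κ := Nat.clog_mono_right _ hs's.le
      have hκ1 : 1 ≤ κ := Nat.clog_pos (by norm_num) (by omega)
      refine ⟨fun _ => hκ1, ?_⟩
      -- the count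
      have hprod : ((SN j).image f).card ≤
          ((SN j).image (lb lab (inner r par M'))).card * m ^ (s - 1 - (s' - 1) - c) := by
        obtain ⟨L, hL⟩ : ∃ L, L = inner r par M \ (C ∪ inner r par M') := ⟨_, rfl⟩
        have h1 : inner r par M = inner r par M' ∪ (C ∪ L) := by
          rw [hL]
          ext l
          simp only [mem_union, mem_sdiff]
          constructor
          · intro h1
            by_cases h2 : l ∈ C
            · exact Or.inr (Or.inl h2)
            · by_cases h3 : l ∈ inner r par M'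
              · exact Or.inl h3
              · right; right
                exact ⟨h1, by tauto⟩
          · rintro (h1 | h1 | h1)
            · exact inner_mono y1 h1
            · exact hCsub h1
            · exact h1.1
        have h2 : L.card = s - 1 - (s' - 1) - c := by
          rw [hL, card_sdiff_of_subset (union_subset hCsub (inner_mono y1)),
            card_union_of_disjoint hCI, ← hc, hinn, hinn']
          omega
        have h3 : ((SN j).image (lb lab C)).card ≤ 1 := by
          rw [card_le_one]
          intro B hB B' hB'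
          rw [mem_image] at hB hB'
          obtain ⟨ω, hω, rfl⟩ := hB
          obtain ⟨ω', hω', rfl⟩ := hB'
          have h4 : ∀ ω ∈ SN j, lb lab C ω = lb lab C ω₀ := by
            intro ω hω
            rw [lb, lb]
            refine image_congr fun l hl => ?_
            have hl : l ∈ C := hl
            rw [hC, mem_filter, mem_inner] at hl
            have h8 := (hDeq ω hω).2 l hl.1.2.1 hl.2
            show (l, lab ω l) = (l, lab ω₀ l)
            rw [h8]
          rw [h4 ω hω, h4 ω' hω']
        rw [hf, h1]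
        refine (lb_mul lab _ _ _).trans (Nat.mul_le_mul_left _ ?_)
        refine (lb_mul lab _ _ _).trans ?_
        rw [← h2]
        calc _ ≤ 1 * m ^ L.card := Nat.mul_le_mul h3 (lb_card lab L _)
          _ = _ := one_mul _
      -- the recursion
      have hrec : ((SN j).image (lb lab (inner r par M'))).card * m ^ κ' ≤
          2 ^ (h + 1) * ((h + 2) * K) ^ κ' * m ^ (s' - 1) := by
        rcases hconst with hyD | hyD
        · have h1 := ihh s' M' hs'.symm y2 a (SN j) (by omega) (by
            intro ω hω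
            refine ⟨(hmemN ω hω).1, j, ?_, ?_⟩
            · rw [← ht, (hDeq ω hω).1]
              exact hyD
            · intro i
              obtain ⟨_, _, _, _, h3⟩ := (hmemN ω hω).2
              exact disjoint_of_subset_right y1 (h3 i))
          refine h1.trans ?_
          refine Nat.mul_le_mul_right _ (Nat.mul_le_mul ?_ ?_)
          · exact Nat.pow_le_pow_right (by norm_num) (by omega)
          · exact Nat.pow_le_pow_left (Nat.mul_le_mul_right _ (by omega)) _
        · exact ihs s' hs's M' hs'.symm y2 a (SN j) ha (by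
            intro ω hω
            obtain ⟨_, _, i, h2, h3⟩ := (hmemN ω hω).2
            exact ⟨(hmemN ω hω).1, i, y1.trans h2,
              fun l => disjoint_of_subset_right y1 (h3 l)⟩)
      set X := ((SN j).image (lb lab (inner r par M'))).card with hX
      set Q := (h + 2) * K with hQ
      have hQm : Q ≤ m := hm
      have hQ1 : 1 ≤ Q := Nat.mul_pos (by omega) hK
      have hmain : ((SN j).image f).card * m ^ (κ' + c) ≤ 2 ^ (h + 1) * Q ^ κ' * m ^ (s - 1) := by
        calc ((SN j).image f).card * m ^ (κ' + c)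
            ≤ (X * m ^ (s - 1 - (s' - 1) - c)) * m ^ (κ' + c) := Nat.mul_le_mul_right _ hprod
          _ = (X * m ^ κ') * m ^ (s - 1 - (s' - 1)) := by
              have : s - 1 - (s' - 1) = (s - 1 - (s' - 1) - c) + c := by omega
              rw [this, pow_add, pow_add]
              rw [show s - 1 - (s' - 1) - c + c - c = s - 1 - (s' - 1) - c by omega]
              ring
          _ ≤ (2 ^ (h + 1) * Q ^ κ' * m ^ (s' - 1)) * m ^ (s - 1 - (s' - 1)) :=
              Nat.mul_le_mul_right _ hrec
          _ = 2 ^ (h + 1) * Q ^ κ' * m ^ (s - 1) := by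
              rw [mul_assoc, ← pow_add]
              congr 2
              omega
      rcases Nat.lt_or_ge κ' κ with hlt | hge
      · calc ((SN j).image f).card * m ^ κ ≤ ((SN j).image f).card * m ^ (κ' + c) :=
              Nat.mul_le_mul_left _ (Nat.pow_le_pow_right hm1 hκκ)
          _ ≤ 2 ^ (h + 1) * Q ^ κ' * m ^ (s - 1) := hmain
          _ ≤ _ := Nat.mul_le_mul_right _ (Nat.mul_le_mul_left _
              (Nat.pow_le_pow_right hQ1 (by omega)))
      · have hκe : κ' = κ := le_antisymm hκ'κ hge
        rw [hκe] at hmain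
        refine Nat.le_of_mul_le_mul_right (c := m) ?_ (by omega)
        calc ((SN j).image f).card * m ^ κ * m = ((SN j).image f).card * m ^ (κ + 1) := by
              rw [pow_succ, mul_assoc]
          _ ≤ ((SN j).image f).card * m ^ (κ + c) :=
              Nat.mul_le_mul_left _ (Nat.pow_le_pow_right hm1 (by omega))
          _ ≤ 2 ^ (h + 1) * Q ^ κ * m ^ (s - 1) := hmain
          _ = 2 ^ (h + 1) * Q ^ (κ - 1) * m ^ (s - 1) * Q := by
              have : κ = κ - 1 + 1 := by omega
              rw [this, pow_succ, Nat.add_sub_cancel]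
              ring
          _ ≤ 2 ^ (h + 1) * Q ^ (κ - 1) * m ^ (s - 1) * m := Nat.mul_le_mul_left _ hQm
    -- total
    have hRL : ((SR.image f).card + (SL.image f).card) * m ^ κ ≤
        2 ^ (h + 1) * ((h + 1) * K) ^ κ * m ^ (s - 1) := by
      calc ((SR.image f).card + (SL.image f).card) * m ^ κ
          = (SR.image f).card * m ^ κ + (SL.image f).card * m ^ κ := add_mul _ _ _
        _ ≤ 2 ^ h * ((h + 1) * K) ^ κ * m ^ (s - 1) +
            2 ^ h * ((h + 1) * K) ^ κ * m ^ (s - 1) := Nat.add_le_add hR hLe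
        _ = _ := by rw [pow_succ]; ring
    have hsumN : (∑ j, ((SN j).image f).card) * m ^ κ ≤
        2 ^ (h + 1) * (K * ((h + 2) * K) ^ (κ - 1)) * m ^ (s - 1) := by
      rw [sum_mul]
      refine (sum_le_card_nsmul univ _ _ fun j _ => (hN j).2).trans (le_of_eq ?_)
      rw [card_univ, ← hKdef, smul_eq_mul]
      ring
    rcases Nat.eq_zero_or_pos κ with hk0 | hkpos
    · have h1 : (∑ j, ((SN j).image f).card) = 0 := by
        refine sum_eq_zero fun j _ => ?_
        rcases (SN j).eq_empty_or_nonempty with h0 | h0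
        · rw [h0]; simp
        · have := (hN j).1 h0
          omega
      rw [h1, add_zero] at hcard
      calc (S.image f).card * m ^ κ ≤ ((SR.image f).card + (SL.image f).card) * m ^ κ :=
            Nat.mul_le_mul_right _ hcard
        _ ≤ 2 ^ (h + 1) * ((h + 1) * K) ^ κ * m ^ (s - 1) := hRL
        _ = _ := by rw [hk0, pow_zero, pow_zero]
    · calc (S.image f).card * m ^ κ
          ≤ ((SR.image f).card + (SL.image f).card + ∑ j, ((SN j).image f).card) * m ^ κ :=
            Nat.mul_le_mul_right _ hcard
        _ = ((SR.image f).card + (SL.image f).card) * m ^ κ +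
            (∑ j, ((SN j).image f).card) * m ^ κ := add_mul _ _ _
        _ ≤ 2 ^ (h + 1) * ((h + 1) * K) ^ κ * m ^ (s - 1) +
            2 ^ (h + 1) * (K * ((h + 2) * K) ^ (κ - 1)) * m ^ (s - 1) :=
            Nat.add_le_add hRL hsumN
        _ = 2 ^ (h + 1) * (((h + 1) * K) ^ κ + K * ((h + 2) * K) ^ (κ - 1)) * m ^ (s - 1) := by
            ring
        _ ≤ 2 ^ (h + 1) * ((h + 2) * K) ^ κ * m ^ (s - 1) :=
            Nat.mul_le_mul_right _ (Nat.mul_le_mul_left _ (C_pow h K κ hkpos))
        _ = _ := rfl

end Pool.Agent.TH679.TR
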