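import Pool.Agent.TH679.PD.Good
import Pool.Agent.H564R3.SV.HistX
import Pool.Agent.H564R3.SV.Main
import Pool.Agent.TH679.TR.Rec

/-!
The lower bound for derivations over trees
-/

set_option autoImplicit false

namespace Pool.Agent.TH679.TR

open Finset
open Pool.Agent.H564R3.PW (Instr exec syms)
open Pool.Agent.H564R3.TS (ind Exact Cov Hist)
open Pool.Agent.H564R3.SV (hist_exch pow_clog_le)
open Pool.Agent.W994.DE (Dag)
open Pool.Agent.W994.DE.Dag
open Pool.Agent.TH679.PD

/-- The graph is a tree with the root `r`: each node except `r` is a child of exactly one node, at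
exactly one place. -/
structure IsTree (G : Dag) (r : G.V) : Prop where
  inj : Function.Injective (fun x : Σ i : G.V, Fin (G.deg i) => G.kid x.1 x.2)
  surj : ∀ v, v ≠ r → ∃ i a, G.kid i a = v

variable {G : Dag} {k : ℕ} {r : G.V}

theorem IsTree.root (h : IsTree G r) (i : G.V) (a : Fin (G.deg i)) : G.kid i a ≠ r := by
  intro hr
  obtain ⟨v, _, hmax⟩ := exists_max_image (univ : Finset G.V) G.rank ⟨r, mem_univ _⟩
  have hv : ∃ i a, G.kid i a = v := by
    by_cases hvr : v = r
    · exact ⟨i, a, by rw [hvr]; exact hr⟩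
    · exact h.surj v hvr
  obtain ⟨j, b, hjb⟩ := hv
  have h1 := G.rank_lt j b
  rw [hjb] at h1
  have h2 := hmax j (mem_univ _)
  omega

/-- the parent of a node -/
noncomputable def par (h : IsTree G r) (v : G.V) : G.V := by
  classical
  exact if hv : v ≠ r then (h.surj v hv).choose else v

theorem par_spec (h : IsTree G r) {v : G.V} (hv : v ≠ r) : ∃ a, G.kid (par h v) a = v := by
  unfold par
  rw [dif_pos hv]
  exact (h.surj v hv).choose_spec

theorem kid_eq (h : IsTree G r) {i : G.V} {a : Fin (G.deg i)} {j : G.V} {b : Fin (G.deg j)}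
    (hk : G.kid i a = G.kid j b) : (⟨i, a⟩ : Σ i : G.V, Fin (G.deg i)) = ⟨j, b⟩ :=
  h.inj hk

theorem par_kid (h : IsTree G r) (i : G.V) (a : Fin (G.deg i)) : par h (G.kid i a) = i := by
  obtain ⟨b, hb⟩ := par_spec h (h.root i a)
  exact congrArg Sigma.fst (kid_eq h hb)

theorem rank_par (h : IsTree G r) (v : G.V) (hv : v ≠ r) : G.rank v < G.rank (par h v) := by
  obtain ⟨a, ha⟩ := par_spec h hv
  have := G.rank_lt (par h v) a
  rwa [ha] at this

theorem E_par (h : IsTree G r) {j : G.V} (hj : j ≠ r) : E G (par h j) j = 1 := by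
  obtain ⟨a, ha⟩ := par_spec h hj
  unfold E
  rw [Finset.sum_eq_single a]
  · rw [if_pos ha]
  · intro b _ hb
    rw [if_neg]
    intro hb'
    apply hb
    have h1 := kid_eq h (hb'.trans ha.symm)
    exact eq_of_heq (Sigma.mk.inj h1).2
  · intro h; exact absurd (mem_univ _) h

theorem E_other (h : IsTree G r) {i j : G.V} (hij : j = r ∨ i ≠ par h j) : E G i j = 0 := by
  unfold E
  refine Finset.sum_eq_zero fun a _ => ?_
  rw [if_neg]
  intro ha
  rcases hij with h1 | h1
  · exact h.root i a (ha.trans h1)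
  · apply h1
    rw [← ha, par_kid h]

theorem cnt_one (h : IsTree G r) : ∀ j, cnt G j r = 1 := by
  obtain ⟨v, _, hmax⟩ := exists_max_image (univ : Finset G.V) G.rank ⟨r, mem_univ _⟩
  have key : ∀ n, ∀ j, G.rank v - G.rank j = n → cnt G j r = 1 := by
    intro n
    induction n using Nat.strong_induction_on with
    | _ n ih =>
    intro j hn
    rw [cnt_step]
    by_cases hj : j = r
    · rw [if_pos hj.symm, Finset.sum_eq_zero, add_zero]
      intro i _
      rw [E_other h (Or.inl hj), mul_zero]
    · rw [if_neg (fun h => hj h.symm), zero_add, Finset.sum_eq_single (par h j)]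
      · have h1 := rank_par h j hj
        have h2 := hmax (par h j) (mem_univ _)
        rw [E_par h hj, mul_one]
        exact ih (G.rank v - G.rank (par h j)) (by omega) _ rfl
      · intro i _ hi
        rw [E_other h (Or.inr hi), mul_zero]
      · intro h; exact absurd (mem_univ _) h
  exact fun j => key _ j rfl

/-- the rules of a labelling -/
def tset (lam : G.V → Fin k) : Finset (Rule G k) := univ.image (xl lam)

theorem mem_tset (lam : G.V → Fin k) (x : Rule G k) : x ∈ tset lam ↔ x = xl lam x.1 := by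
  constructor
  · intro h
    obtain ⟨i, -, rfl⟩ := mem_image.mp h
    rfl
  · intro h
    rw [h]
    exact mem_image_of_mem _ (mem_univ _)

theorem ind_tset (h : IsTree G r) (lam : G.V → Fin k) : ind (tset lam) = Mon lam r := by
  funext x
  unfold ind Mon
  rw [cnt_one h]
  by_cases hx : x = xl lam x.1
  · rw [if_pos hx, if_pos ((mem_tset lam x).2 hx)]
  · rw [if_neg hx, if_neg (fun h => hx ((mem_tset lam x).1 h))]

/-- the position of a rule: its node -/
def pos (x : Rule G k) : Finset G.V := {x.1}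

theorem mem_nodes (Y : Finset (Rule G k)) (i : G.V) : i ∈ Y.biUnion pos ↔ ∃ y ∈ Y, y.1 = i := by
  simp only [mem_biUnion, pos, mem_singleton]
  constructor
  · rintro ⟨y, hy, rfl⟩; exact ⟨y, hy, rfl⟩
  · rintro ⟨y, hy, rfl⟩; exact ⟨y, hy, rfl⟩

theorem mem_nodes_sub {lam : G.V → Fin k} {Y : Finset (Rule G k)} (hY : Y ⊆ tset lam) (i : G.V) :
    i ∈ Y.biUnion pos ↔ xl lam i ∈ Y := by
  rw [mem_nodes]
  constructor
  · rintro ⟨y, hy, rfl⟩
    have h1 := (mem_tset lam y).1 (hY hy)
    rwa [← h1]
  · intro h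
    exact ⟨_, h, rfl⟩

theorem tset_exact (lam : G.V → Fin k) : Exact pos 1 univ (tset lam) := by
  refine ⟨fun x _ => by simp [pos], fun x _ => subset_univ _, ?_, ?_⟩
  · intro x hx y hy hne
    rw [mem_tset] at hx hy
    simp only [pos, disjoint_singleton]
    intro h
    apply hne
    rw [hx, hy, h]
  · intro e _
    exact ⟨xl lam e, mem_image_of_mem _ (mem_univ _), by simp [pos, xl]⟩

theorem cov_of_good (h : IsTree G r) {T : Set (Rule G k → ℕ)} {u₀ : Fin k} (hT : Good T r u₀) :
    Cov pos T := by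
  intro u hu e
  have h1 := hT.ge _ _ (cert_size (fun i => if i = e then 1 else 0)) u hu
  rw [size_cnt _ r (fun _ => u₀)] at h1
  have h2 : ∑ i, cnt G i r * (if i = e then 1 else 0) = 1 := by
    rw [Finset.sum_eq_single e]
    · rw [if_pos rfl, mul_one, cnt_one h]
    · intro i _ hi
      rw [if_neg hi, mul_zero]
    · intro h; exact absurd (mem_univ _) h
  rw [h2] at h1
  by_contra hno
  push Not at hno
  have h3 : dot u (fun x : Rule G k => if x.1 = e then 1 else 0) = 0 := by
    unfold dot
    refine Finset.sum_eq_zero fun x _ => ?_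
    by_cases hx : x.1 = e
    · have h4 : u x = 0 := by
        by_contra h5
        exact hno x h5 (by rw [pos, mem_singleton]; exact hx.symm)
      rw [h4, zero_mul]
    · show u x * (if x.1 = e then 1 else 0) = 0
      rw [if_neg hx, mul_zero]
  omega

theorem dot_ind (A : Finset (Rule G k)) (W : Rule G k → ℕ) : dot (ind A) W = ∑ x ∈ A, W x := by
  unfold dot ind
  simp_rw [ite_mul, one_mul, zero_mul]
  rw [Finset.sum_ite_mem, Finset.univ_inter]

/-- Exchanging the parts of two labellings with the same nodes. -/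
theorem dot_mixed {lam lam' : G.V → Fin k} {Y Z : Finset (Rule G k)} (hY : Y ⊆ tset lam)
    (hZ : Z ⊆ tset lam') (hpos : Y.biUnion pos = Z.biUnion pos) (W : Rule G k → ℕ) :
    dot (ind (tset lam \ Y) + ind Z) W =
      ∑ i, W (if i ∈ Y.biUnion pos then xl lam' i else xl lam i) := by
  classical
  rw [dot_add, dot_ind, dot_ind]
  have h1 : tset lam \ Y = (univ.filter fun i => i ∉ Y.biUnion pos).image (xl lam) := by
    ext x
    rw [mem_sdiff, mem_image]
    constructor
    · rintro ⟨h1, h2⟩
      have h3 := (mem_tset lam x).1 h1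
      refine ⟨x.1, ?_, h3.symm⟩
      rw [mem_filter, mem_nodes_sub hY, ← h3]
      exact ⟨mem_univ _, h2⟩
    · rintro ⟨i, hi, rfl⟩
      rw [mem_filter, mem_nodes_sub hY] at hi
      exact ⟨mem_image_of_mem _ (mem_univ _), hi.2⟩
  have h2 : Z = (univ.filter fun i => i ∈ Y.biUnion pos).image (xl lam') := by
    ext x
    rw [mem_image]
    constructor
    · intro h1
      have h3 := (mem_tset lam' x).1 (hZ h1)
      refine ⟨x.1, ?_, h3.symm⟩
      rw [mem_filter, hpos, mem_nodes_sub hZ, ← h3]
      exact ⟨mem_univ _, h1⟩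
    · rintro ⟨i, hi, rfl⟩
      rw [mem_filter, hpos, mem_nodes_sub hZ] at hi
      exact hi.2
  conv_lhs =>
    rw [h1]
    rw [h2]
  rw [sum_image (fun a _ b _ h => xl_inj h), sum_image (fun a _ b _ h => xl_inj h)]
  have h3 : ∀ i, W (if i ∈ Y.biUnion pos then xl lam' i else xl lam i) =
      (if i ∉ Y.biUnion pos then W (xl lam i) else 0) +
        (if i ∈ Y.biUnion pos then W (xl lam' i) else 0) := by
    intro i
    by_cases hi : i ∈ Y.biUnion pos
    · rw [if_pos hi, if_pos hi, if_neg (not_not.2 hi), zero_add]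
    · rw [if_neg hi, if_neg hi, if_pos hi, add_zero]
  rw [Finset.sum_congr rfl fun i _ => h3 i, Finset.sum_add_distrib, ← Finset.sum_filter,
    ← Finset.sum_filter]

/-- At a cut the two labellings agree. -/
theorem cut_eq (h : IsTree G r) {T : Set (Rule G k → ℕ)} {u₀ : Fin k} (hT : Good T r u₀)
    {lam lam' : G.V → Fin k} {Y Z : Finset (Rule G k)} (hY : Y ⊆ tset lam)
    (hZ : Z ⊆ tset lam') (hpos : Y.biUnion pos = Z.biUnion pos)
    (hmem : ind (tset lam \ Y) + ind Z ∈ T) {j : G.V} (hj : j ≠ r)
    (hcut : ¬ (j ∈ Y.biUnion pos ↔ par h j ∈ Y.biUnion pos)) : lam j = lam' j := by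
  classical
  obtain ⟨D, hD⟩ : ∃ D, D = Y.biUnion pos := ⟨_, rfl⟩
  obtain ⟨mr, hmr⟩ : ∃ mr : G.V → Rule G k, ∀ i, mr i = if i ∈ D then xl lam' i else xl lam i :=
    ⟨_, fun _ => rfl⟩
  obtain ⟨v, hv⟩ : ∃ v, v = if par h j ∈ D then lam' j else lam j := ⟨_, rfl⟩
  have h1 := hT.ge _ _ (cert_W1 j v) _ hmem
  rw [dot_mixed hY hZ hpos, ← hD] at h1
  simp_rw [← hmr] at h1
  have h2 : (size G (fun i => G.deg i + 1) r + if r = j ∧ u₀ = v then 1 else 0) =
      ∑ i, (G.deg i + 1) := by
    rw [if_neg (fun h => hj h.1.symm), add_zero, size_cnt _ r (fun _ => u₀)]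
    exact Finset.sum_congr rfl fun i _ => by rw [cnt_one h, one_mul]
  rw [h2] at h1
  have h3 : ∑ i, W1 j v (mr i) + ∑ i, ch j v (mr i) =
      ∑ i, (G.deg i + 1) + ∑ i, hd j v (mr i) := by
    rw [← Finset.sum_add_distrib, ← Finset.sum_add_distrib]
    refine Finset.sum_congr rfl fun i _ => ?_
    rw [W1_add]
    have h4 : (mr i).1 = i := by
      rw [hmr]
      split_ifs <;> rfl
    rw [h4]
  have h5 : 1 ≤ ∑ i, ch j v (mr i) := by
    refine le_trans ?_ (Finset.single_le_sum (f := fun i => ch j v (mr i))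
      (fun _ _ => Nat.zero_le _) (mem_univ (par h j)))
    obtain ⟨a, ha⟩ := par_spec h hj
    show 1 ≤ ch j v (mr (par h j))
    rw [hmr]
    unfold ch
    by_cases hp : par h j ∈ D
    · rw [if_pos hp] at hv ⊢
      refine le_trans ?_ (Finset.single_le_sum
        (f := fun a => if G.kid (xl lam' (par h j)).1 a = j ∧ (xl lam' (par h j)).2.2 a = v
          then 1 else 0) (fun _ _ => Nat.zero_le _) (mem_univ a))
      show 1 ≤ if G.kid (par h j) a = j ∧ lam' (G.kid (par h j) a) = v then 1 else 0
      rw [if_pos ⟨ha, by rw [ha]; exact hv.symm⟩]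
    · rw [if_neg hp] at hv ⊢
      refine le_trans ?_ (Finset.single_le_sum
        (f := fun a => if G.kid (xl lam (par h j)).1 a = j ∧ (xl lam (par h j)).2.2 a = v
          then 1 else 0) (fun _ _ => Nat.zero_le _) (mem_univ a))
      show 1 ≤ if G.kid (par h j) a = j ∧ lam (G.kid (par h j) a) = v then 1 else 0
      rw [if_pos ⟨ha, by rw [ha]; exact hv.symm⟩]
  have h6 : ∑ i, hd j v (mr i) ≠ 0 := by omega
  obtain ⟨i, _, hi⟩ := Finset.exists_ne_zero_of_sum_ne_zero h6
  unfold hd at hi
  have h7 : (mr i).1 = j ∧ (mr i).2.1 = v := by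
    by_contra hno
    rw [if_neg hno] at hi
    exact hi rfl
  have h8 : (mr i).1 = i := by
    rw [hmr]
    split_ifs <;> rfl
  have h9 : i = j := h8.symm.trans h7.1
  subst h9
  rw [← hD] at hcut
  by_cases hjD : i ∈ D
  · have hp : par h i ∉ D := fun hp => hcut (iff_of_true hjD hp)
    rw [if_neg hp] at hv
    have h10 := h7.2
    rw [hmr, if_pos hjD] at h10
    rw [← hv, ← h10]
    rfl
  · have hp : par h i ∈ D := by
      by_contra hp
      exact hcut (iff_of_false hjD hp)
    rw [if_pos hp] at hv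
    have h10 := h7.2
    rw [hmr, if_neg hjD] at h10
    rw [← hv, ← h10]
    rfl

theorem nodes_hist {N : ℕ} {ρ : Type} (lam : G.V → Fin k)
    (z : ℕ → ρ → Finset (Rule G k)) (h : Hist N (tset lam) z) :
    Hist N (univ : Finset G.V) (fun t i => (z t i).biUnion pos) := by
  refine ⟨?_, ?_, ?_, ?_, ?_⟩
  · intro i
    show (z 0 i).biUnion pos = ∅
    rw [h.zero i, biUnion_empty]
  · intro t _ i
    exact subset_univ _
  · intro t ht i j hij
    rw [disjoint_left]
    intro v hv hv'
    rw [mem_nodes_sub (h.sub t ht i)] at hv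
    rw [mem_nodes_sub (h.sub t ht j)] at hv'
    exact disjoint_left.1 (h.disj t ht i j hij) hv hv'
  · intro t ht i
    obtain ⟨j, hj⟩ := h.up t ht i
    exact ⟨j, biUnion_subset_biUnion_of_subset_left _ hj⟩
  · intro t ht i
    rcases h.down t ht i with ⟨j, hj⟩ | ⟨j, l, hj⟩ | hj
    · left
      exact ⟨j, by rw [hj]⟩
    · right; left
      refine ⟨j, l, ?_⟩
      show (z (t + 1) i).biUnion pos = _
      rw [hj, union_biUnion]
    · right; right
      refine (card_biUnion_le_card_mul _ _ 1 fun x _ => ?_).trans ?_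
      · rw [pos, card_singleton]
      · rw [mul_one]
        exact hj

/-- The law for trees. -/
theorem tree_law {R ρ : Type} [Zero R] [Fintype ρ] [DecidableEq ρ] (h : IsTree G r) {u₀ : Fin k}
    {p : List (Instr R (Rule G k) ρ)} {o : ρ} (hT : Good (syms p o) r u₀) (hp : 1 ≤ p.length) :
    k ^ Nat.clog 2 (Fintype.card G.V) ≤ 2 * p.length *
      ((Nat.clog 2 p.length + 1) * Fintype.card ρ) ^ Nat.clog 2 (Fintype.card G.V) := by
  classical
  have hk : 1 ≤ k := Nat.lt_of_le_of_lt (Nat.zero_le _) u₀.2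
  set n := Fintype.card G.V with hn
  set H := Nat.clog 2 p.length with hH
  set κ := Nat.clog 2 n with hκ
  have hHT : 2 ^ H ≤ 2 * p.length := pow_clog_le _ hp
  rcases Nat.lt_or_ge k ((H + 1) * Fintype.card ρ) with hlt | hge
  · calc k ^ κ ≤ ((H + 1) * Fintype.card ρ) ^ κ := Nat.pow_le_pow_left hlt.le _
      _ = 1 * ((H + 1) * Fintype.card ρ) ^ κ := (one_mul _).symm
      _ ≤ _ := Nat.mul_le_mul_right _ (by omega)
  · set Φ : Finset (G.V → Fin k) := univ.filter fun lam => lam r = u₀ with hΦ
    set F := Φ.image (tset (G := G) (k := k)) with hF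
    have hFe : ∀ A ∈ F, Exact pos 1 univ A := by
      intro A hA
      rw [hF, mem_image] at hA
      obtain ⟨lam, _, rfl⟩ := hA
      exact tset_exact lam
    have g1 : ∀ A ∈ F, ind A ∈ syms p o := by
      intro A hA
      rw [hF, mem_image] at hA
      obtain ⟨lam, hlam, rfl⟩ := hA
      rw [ind_tset h]
      rw [hΦ, mem_filter] at hlam
      exact hT.mem lam hlam.2
    obtain ⟨z, hz, hex⟩ := hist_exch le_rfl p o (cov_of_good h hT) F hFe g1 (2 ^ H)
      (Nat.le_pow_clog (by norm_num) _)
    have hmemF : ∀ lam ∈ Φ, tset lam ∈ F := fun lam hlam => mem_image_of_mem _ hlam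
    set J : (G.V → Fin k) → ℕ → ρ → Finset G.V :=
      fun lam t i => (z (tset lam) t i).biUnion pos with hJ
    have hJne : ∀ lam t i, (J lam t i).Nonempty → (z (tset lam) t i).Nonempty := by
      rintro lam t i ⟨v, hv⟩
      obtain ⟨y, hy, _⟩ := (mem_nodes _ _).1 hv
      exact ⟨y, hy⟩
    have hK : 1 ≤ Fintype.card ρ := Fintype.card_pos_iff.2 ⟨o⟩
    have hinn : inner r (par h) (univ : Finset G.V) = univ.erase r := by
      ext v
      rw [mem_inner, mem_erase]
      simp
    have hn1 : 1 ≤ n := Fintype.card_pos_iff.2 ⟨r⟩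
    have hconn : Conn r (par h) (univ : Finset G.V) := by
      refine ⟨⟨r, mem_univ _⟩, ?_⟩
      rw [hinn, card_erase_of_mem (mem_univ _), card_univ, ← hn]
      omega
    have hc := tree_rec (r := r) (par := par h) (rk := G.rank) (rank_par h) Φ
      (fun lam => lam) J (fun lam hlam => nodes_hist lam _ (hz _ (hmemF lam hlam)).1) (by
        intro lam hlam lam' hlam' t ht i h1 h2
        obtain ⟨h3, h4⟩ := hex _ (hmemF lam hlam) _ (hmemF lam' hlam') t ht i (hJne _ _ _ h1)
          (hJne _ _ _ h2)
        refine ⟨h3, fun l hl hcut => ?_⟩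
        exact cut_eq h hT ((hz _ (hmemF lam hlam)).1.sub t ht i)
          ((hz _ (hmemF lam' hlam')).1.sub t ht i) h3 h4 hl hcut) hK H hge n univ
      (by rw [card_univ]) hconn 0 Φ (by omega) (by
        intro lam hlam
        refine ⟨hlam, o, ?_, fun j => ?_⟩
        · intro v _
          rw [zero_add, hJ]
          simp only
          rw [(hz _ (hmemF lam hlam)).2, mem_nodes]
          exact ⟨xl lam v, mem_image_of_mem _ (mem_univ _), rfl⟩
        · rw [hJ]
          simp only
          rw [(hz _ (hmemF lam hlam)).1.zero j, biUnion_empty]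
          exact disjoint_empty_left _)
    have hΦc : Φ.card = k ^ (n - 1) := by
      have h1 : Φ = Fintype.piFinset fun j => if j = r then ({u₀} : Finset (Fin k)) else univ := by
        ext lam
        rw [hΦ, mem_filter, Fintype.mem_piFinset]
        constructor
        · rintro ⟨_, h1⟩ j
          by_cases hj : j = r
          · rw [if_pos hj, mem_singleton, hj]; exact h1
          · rw [if_neg hj]; exact mem_univ _
        · intro h1
          refine ⟨mem_univ _, ?_⟩
          have h2 := h1 r
          rw [if_pos rfl, mem_singleton] at h2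
          exact h2
      rw [h1, Fintype.card_piFinset]
      have h2 : ∀ j : G.V, (if j = r then ({u₀} : Finset (Fin k)) else univ).card =
          if j = r then 1 else k := by
        intro j
        split_ifs
        · exact card_singleton _
        · rw [card_univ, Fintype.card_fin]
      rw [Finset.prod_congr rfl fun j _ => h2 j, Finset.prod_ite, Finset.prod_const_one, one_mul,
        Finset.prod_const]
      congr 1
      have h3 : (univ : Finset G.V).filter (fun j => ¬ j = r) = univ.erase r := by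
        ext j
        simp
      rw [h3, card_erase_of_mem (mem_univ _), card_univ]
    have himg : (Φ.image (lb (fun lam : G.V → Fin k => lam)
        (inner r (par h) (univ : Finset G.V)))).card = k ^ (n - 1) := by
      rw [card_image_of_injOn, hΦc]
      intro lam hlam lam' hlam' heq
      have hlam1 : lam ∈ Φ := hlam
      have hlam2 : lam' ∈ Φ := hlam'
      rw [hΦ, mem_filter] at hlam1 hlam2
      funext v
      by_cases hv : v = r
      · rw [hv, hlam1.2, hlam2.2]
      · have h1 : (v, lam v) ∈ lb (fun lam : G.V → Fin k => lam)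
            (inner r (par h) (univ : Finset G.V)) lam' := by
          rw [← heq]
          refine mem_image.2 ⟨v, ?_, rfl⟩
          rw [hinn]
          exact mem_erase.2 ⟨hv, mem_univ _⟩
        obtain ⟨v', _, h2⟩ := mem_image.1 h1
        rw [Prod.mk.injEq] at h2
        obtain ⟨h3, h4⟩ := h2
        subst h3
        exact h4.symm
    rw [himg] at hc
    have hpos : 0 < k ^ (n - 1) := Nat.pow_pos hk
    have h6 : k ^ κ ≤ 2 ^ H * ((H + 1) * Fintype.card ρ) ^ κ := by
      refine Nat.le_of_mul_le_mul_right (c := k ^ (n - 1)) ?_ hpos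
      rw [mul_comm (k ^ κ)]
      exact hc
    exact h6.trans (Nat.mul_le_mul_right _ hHT)

theorem good_length {R ρ : Type} [Zero R] [DecidableEq ρ] {u₀ : Fin k}
    {p : List (Instr R (Rule G k) ρ)} {o : ρ} (hT : Good (syms p o) r u₀) : 1 ≤ p.length := by
  rcases p with _ | ⟨a, l⟩
  · have h1 := hT.mem (fun _ => u₀) rfl
    have h2 : syms ([] : List (Instr R (Rule G k) ρ)) o = ∅ := rfl
    rw [h2] at h1
    exact absurd h1 (Set.notMem_empty _)
  · simp

end Pool.Agent.TH679.TR
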