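import Mathlib

/-!
Connected sets of nodes of a tree
-/

set_option autoImplicit false
set_option linter.unusedSectionVars false

namespace Pool.Agent.TH679.TR

open Finset

section Win

variable {V : Type} [DecidableEq V] (r : V) (par : V → V)

/-- the nodes of `M` whose parent is in `M` -/
def inner (M : Finset V) : Finset V := M.filter (fun j => j ≠ r ∧ par j ∈ M)

/-- `M` is connected -/
def Conn (M : Finset V) : Prop := M.Nonempty ∧ (inner r par M).card + 1 = M.card

variable {r par}

theorem mem_inner {M : Finset V} {j : V} : j ∈ inner r par M ↔ j ∈ M ∧ j ≠ r ∧ par j ∈ M := by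
  rw [inner, mem_filter]

theorem inner_sub (M : Finset V) : inner r par M ⊆ M := filter_subset _ _

theorem inner_mono {M M' : Finset V} (h : M ⊆ M') : inner r par M ⊆ inner r par M' := by
  intro j hj
  rw [mem_inner] at hj ⊢
  exact ⟨h hj.1, hj.2.1, h hj.2.2⟩

theorem exists_top {M : Finset V} (hM : M.Nonempty) {rk : V → ℕ}
    (hrk : ∀ j, j ≠ r → rk j < rk (par j)) : ∃ j ∈ M, j ∉ inner r par M ∧ ∀ i ∈ M, rk i ≤ rk j := by
  obtain ⟨j, hj, hmax⟩ := exists_max_image M rk hM
  refine ⟨j, hj, fun h => ?_, hmax⟩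
  rw [mem_inner] at h
  have h1 := hmax _ h.2.2
  have h2 := hrk j h.2.1
  omega

theorem inner_card_lt {M : Finset V} (hM : M.Nonempty) {rk : V → ℕ}
    (hrk : ∀ j, j ≠ r → rk j < rk (par j)) : (inner r par M).card + 1 ≤ M.card := by
  obtain ⟨j, hj, hj', _⟩ := exists_top hM hrk
  have h1 : inner r par M ⊆ M.erase j := fun i hi =>
    mem_erase.2 ⟨fun h => hj' (h ▸ hi), inner_sub _ hi⟩
  have h2 := card_le_card h1
  rw [card_erase_of_mem hj] at h2
  have h3 := card_pos.2 hM
  omega

/-- A connected set without cuts is inside or outside. -/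
theorem const_of_conn {M : Finset V} (hM : Conn r par M) {rk : V → ℕ}
    (hrk : ∀ j, j ≠ r → rk j < rk (par j)) {D : Finset V}
    (hD : ∀ j ∈ inner r par M, (j ∈ D ↔ par j ∈ D)) : M ⊆ D ∨ Disjoint D M := by
  obtain ⟨j₀, hj, hj', hmax⟩ := exists_top hM.1 hrk
  have hinner : ∀ i ∈ M, i ≠ j₀ → i ∈ inner r par M := by
    have h1 : inner r par M = M.erase j₀ := by
      refine eq_of_subset_of_card_le (fun i hi =>
        mem_erase.2 ⟨fun h => hj' (h ▸ hi), inner_sub _ hi⟩) ?_
      rw [card_erase_of_mem hj, ← hM.2]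
      omega
    intro i hi hne
    rw [h1]
    exact mem_erase.2 ⟨hne, hi⟩
  have key : ∀ n, ∀ i ∈ M, rk j₀ - rk i = n → (i ∈ D ↔ j₀ ∈ D) := by
    intro n
    induction n using Nat.strong_induction_on with
    | _ n ih =>
    intro i hi hn
    by_cases hne : i = j₀
    · rw [hne]
    · have h1 := hinner i hi hne
      rw [hD i h1]
      rw [mem_inner] at h1
      have h2 := hrk i h1.2.1
      have h3 := hmax _ h1.2.2
      exact ih (rk j₀ - rk (par i)) (by omega) _ h1.2.2 rfl
  by_cases h0 : j₀ ∈ D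
  · left
    intro i hi
    exact (key _ i hi rfl).2 h0
  · right
    rw [disjoint_right]
    intro i hi hiD
    exact h0 ((key _ i hi rfl).1 hiD)

/-- `j` is an ancestor of `v`, or equal to `v` -/
def Anc (r : V) (par : V → V) (j v : V) : Prop :=
  Relation.ReflTransGen (fun a b => a ≠ r ∧ par a = b) v j

theorem anc_self (j : V) : Anc r par j j := Relation.ReflTransGen.refl

theorem anc_rank {rk : V → ℕ} (hrk : ∀ j, j ≠ r → rk j < rk (par j)) {j v : V}
    (h : Anc r par j v) : rk v ≤ rk j := by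
  induction h with
  | refl => exact le_rfl
  | tail _ h ih =>
    have h1 := hrk _ h.1
    rw [h.2] at h1
    omega

theorem anc_par {j v : V} (hv : v ≠ r) (hne : v ≠ j) : Anc r par j v ↔ Anc r par j (par v) := by
  constructor
  · intro h
    rcases Relation.ReflTransGen.cases_head h with h1 | ⟨u, h1, h2⟩
    · exact absurd h1 hne
    · rw [← h1.2] at h2
      exact h2
  · intro h
    exact Relation.ReflTransGen.head ⟨hv, rfl⟩ h

theorem split {rk : V → ℕ} (hrk : ∀ j, j ≠ r → rk j < rk (par j)) (c : ℕ) :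
    ∀ (M C : Finset V), Conn r par M → C ⊆ inner r par M → C.card = c →
      ∃ M', M' ⊆ M ∧ Conn r par M' ∧ Disjoint C (inner r par M') ∧ M.card ≤ (c + 1) * M'.card := by
  classical
  induction c using Nat.strong_induction_on with
  | _ c ih =>
  intro M C hM hC hc
  rcases Nat.eq_zero_or_pos c with h0 | h0
  · subst h0
    rw [card_eq_zero] at hc
    subst hc
    exact ⟨M, Subset.rfl, hM, disjoint_empty_left _, by omega⟩
  · obtain ⟨j, hjC⟩ := card_pos.1 (lt_of_lt_of_eq h0 hc.symm)
    have hj := hC hjC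
    rw [mem_inner] at hj
    obtain ⟨hjM, hjr, hjp⟩ := hj
    obtain ⟨M₁, hM₁⟩ : ∃ M₁, M₁ = M.filter (fun v => Anc r par j v) := ⟨_, rfl⟩
    obtain ⟨M₂, hM₂⟩ : ∃ M₂, M₂ = M.filter (fun v => ¬ Anc r par j v) := ⟨_, rfl⟩
    have hnp : ¬ Anc r par j (par j) := fun h => by
      have h1 := anc_rank hrk h
      have h2 := hrk j hjr
      omega
    have hm1 : ∀ v, v ∈ M₁ ↔ v ∈ M ∧ Anc r par j v := fun v => by rw [hM₁, mem_filter]
    have hm2 : ∀ v, v ∈ M₂ ↔ v ∈ M ∧ ¬ Anc r par j v := fun v => by rw [hM₂, mem_filter]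
    have hj1 : j ∈ M₁ := (hm1 j).2 ⟨hjM, anc_self j⟩
    have hj2 : par j ∈ M₂ := (hm2 _).2 ⟨hjp, hnp⟩
    have hcardM : M₁.card + M₂.card = M.card := by
      rw [hM₁, hM₂]
      exact Finset.card_filter_add_card_filter_not _
    have hdisj : Disjoint M₁ M₂ := by
      rw [disjoint_left]
      intro v h1 h2
      exact ((hm2 v).1 h2).2 ((hm1 v).1 h1).2
    have hs1 : M₁ ⊆ M := fun v hv => ((hm1 v).1 hv).1
    have hs2 : M₂ ⊆ M := fun v hv => ((hm2 v).1 hv).1
    have hinn : inner r par M = insert j (inner r par M₁ ∪ inner r par M₂) := by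
      ext v
      rw [mem_insert, mem_union, mem_inner, mem_inner, mem_inner, hm1, hm1, hm2, hm2]
      constructor
      · rintro ⟨h1, h2, h3⟩
        by_cases hvj : v = j
        · exact Or.inl hvj
        · right
          have h4 := anc_par (r := r) (par := par) h2 hvj
          by_cases h5 : Anc r par j v
          · exact Or.inl ⟨⟨h1, h5⟩, h2, h3, h4.1 h5⟩
          · exact Or.inr ⟨⟨h1, h5⟩, h2, h3, fun h => h5 (h4.2 h)⟩
      · rintro (h1 | ⟨⟨h1, _⟩, h2, h3, _⟩ | ⟨⟨h1, _⟩, h2, h3, _⟩)
        · rw [h1]; exact ⟨hjM, hjr, hjp⟩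
        · exact ⟨h1, h2, h3⟩
        · exact ⟨h1, h2, h3⟩
    have hjn : j ∉ inner r par M₁ ∪ inner r par M₂ := by
      rw [mem_union, mem_inner, mem_inner, hm1, hm1, hm2]
      rintro (⟨_, _, _, h⟩ | ⟨⟨_, h⟩, _⟩)
      · exact hnp h
      · exact h (anc_self j)
    have hdi : Disjoint (inner r par M₁) (inner r par M₂) :=
      disjoint_of_subset_left (inner_sub _) (disjoint_of_subset_right (inner_sub _) hdisj)
    have hic : (inner r par M).card = (inner r par M₁).card + (inner r par M₂).card + 1 := by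
      rw [hinn, card_insert_of_notMem hjn, card_union_of_disjoint hdi]
    have hi1 := inner_card_lt (r := r) (par := par) ⟨j, hj1⟩ hrk
    have hi2 := inner_card_lt (r := r) (par := par) ⟨_, hj2⟩ hrk
    have hMc := hM.2
    have hc1 : Conn r par M₁ := ⟨⟨j, hj1⟩, by omega⟩
    have hc2 : Conn r par M₂ := ⟨⟨_, hj2⟩, by omega⟩
    -- the cuts
    have hCe : C = insert j ((C ∩ inner r par M₁) ∪ (C ∩ inner r par M₂)) := by
      ext v
      rw [mem_insert, mem_union, mem_inter, mem_inter]
      constructor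
      · intro hv
        have h1 := hC hv
        rw [hinn, mem_insert, mem_union] at h1
        rcases h1 with h1 | h1 | h1
        · exact Or.inl h1
        · exact Or.inr (Or.inl ⟨hv, h1⟩)
        · exact Or.inr (Or.inr ⟨hv, h1⟩)
      · rintro (h1 | ⟨h1, _⟩ | ⟨h1, _⟩)
        · rw [h1]; exact hjC
        · exact h1
        · exact h1
    have hcc : c = (C ∩ inner r par M₁).card + (C ∩ inner r par M₂).card + 1 := by
      rw [← hc]
      conv_lhs => rw [hCe]
      rw [card_insert_of_notMem, card_union_of_disjoint]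
      · exact disjoint_of_subset_left inter_subset_right
          (disjoint_of_subset_right inter_subset_right hdi)
      · intro h
        apply hjn
        rw [mem_union, mem_inter, mem_inter] at h
        rw [mem_union]
        exact h.imp And.right And.right
    obtain ⟨M₁', a1, a2, a3, a4⟩ := ih _ (by omega) M₁ (C ∩ inner r par M₁) hc1
      inter_subset_right rfl
    obtain ⟨M₂', b1, b2, b3, b4⟩ := ih _ (by omega) M₂ (C ∩ inner r par M₂) hc2
      inter_subset_right rfl
    set c₁ := (C ∩ inner r par M₁).card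
    set c₂ := (C ∩ inner r par M₂).card
    have hdC1 : Disjoint C (inner r par M₁') := by
      rw [disjoint_left] at a3 ⊢
      intro v hv hv'
      exact a3 (mem_inter.2 ⟨hv, inner_mono a1 hv'⟩) hv'
    have hdC2 : Disjoint C (inner r par M₂') := by
      rw [disjoint_left] at b3 ⊢
      intro v hv hv'
      exact b3 (mem_inter.2 ⟨hv, inner_mono b1 hv'⟩) hv'
    rcases le_total M₁'.card M₂'.card with h | h
    · refine ⟨M₂', b1.trans hs2, b2, hdC2, ?_⟩
      calc M.card = M₁.card + M₂.card := hcardM.symm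
        _ ≤ (c₁ + 1) * M₂'.card + (c₂ + 1) * M₂'.card :=
            Nat.add_le_add (a4.trans (Nat.mul_le_mul_left _ h)) b4
        _ = (c + 1) * M₂'.card := by rw [hcc]; ring
    · refine ⟨M₁', a1.trans hs1, a2, hdC1, ?_⟩
      calc M.card = M₁.card + M₂.card := hcardM.symm
        _ ≤ (c₁ + 1) * M₁'.card + (c₂ + 1) * M₁'.card :=
            Nat.add_le_add a4 (b4.trans (Nat.mul_le_mul_left _ h))
        _ = (c + 1) * M₁'.card := by rw [hcc]; ring

end Win

end Pool.Agent.TH679.TR
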